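import Pool.Agent.R870.DY.Main

/-!
# MP_4f5c90_nt: the dynamical Lang inequality for almost all polynomials and all algebraic numbers of
small height

Let `d ≥ 2` and let `f_c (x) = ∑ c_i x ^ i` be the polynomials of degree at most `d` with integral
coefficients of absolute value at most `H`; there are `(2 H + 1) ^ (d + 1)` of them. We show: for almost
all of them, all algebraic numbers `x` with `h (x) ≤ B`, in all number fields of all degrees, satisfy

  `h (f_c ^ n (x)) ≥ d ^ (n - 1) B` for all `n ≥ 1`, so `ĥ_f (x) ≥ B / d`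

for the canonical height `ĥ_f` of `f = f_c`. The proportion of the exceptions is at most
`C Λ ^ κ exp (κ B) / (2 H + 1) + 1 / Λ` for every `Λ`, `1 ≤ Λ ≤ H / (d + 1)`, with constants `C`, `κ` which
depend only on `d`. So for `B = θ log H` with a suitable `θ = θ (d) > 0` and `Λ = H ^ θ` it is at most
`H ^ (-θ')`, and for the other `f` we have, as `log H ≥ h (f)` bounds the height of the class of `f`
in the moduli space up to constants,

  `ĥ_f (x) ≥ (θ / d) log H` for all algebraic `x` with `h (x) ≤ θ log H`,

that is, the inequality of the dynamical Lang height conjecture, with constants which do not depend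
on the number field. In particular `f` has no preperiodic point of height `≤ θ log H` in any number
field, of any period.

Proof. Let `h (x) ≤ B`, `y = f (x)`. At the finite places `|y|_v ≤ max (1, |x|_v) ^ d`, and if
`|y|_v > R = (d + 1) Λ` at an archimedean place then `|f ^ n (y)|_v ≥ |y|_v ^ (d ^ n)`, as the leading
coefficient of `f` has absolute value at least `H / Λ`. So `h (f ^ n (y)) ≥ d ^ n (h (y) - d h (x) - log R)`.
Finally `h (y)` is large for almost all `c`: otherwise `∑ c_i x ^ i = y` is a relation of `(c, -1)` with an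
algebraic vector of small height, and so one with a small integral vector (`descend`).
-/

set_option autoImplicit false

namespace Pool.Agent.Results.MP_4f5c90_nt.SmallPointsEscape

open Height

/-- the polynomial map `x ↦ ∑ c_i x ^ i` -/
def poly {L : Type} [Field L] {d : ℕ} (c : Fin (d + 1) → ℤ) (x : L) : L :=
  ∑ i, (c i : L) * x ^ (i : ℕ)

/-- Let `d ≥ 2`. There are `C`, `κ` such that for all `H`, all `Λ` with `1 ≤ Λ ≤ H / (d + 1)` and all
`B ≥ 0` for all but `(C Λ ^ κ exp (κ B) / (2 H + 1) + 2 H / (Λ (2 H + 1))) (2 H + 1) ^ (d + 1)` of the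
integral vectors `c` of size at most `H`: for every number field `L`, every `x ∈ L` with absolute
logarithmic height at most `B` and every `n ≥ 0` the iterate `f ^ (n + 1) (x)` of `f = f_c` has height
at least `d ^ n B`. -/
theorem result (d : ℕ) (hd : 2 ≤ d) : ∃ C κ : ℕ, ∀ (H Λ : ℕ) (B : ℝ), 1 ≤ Λ → (d + 1) * Λ ≤ H →
    0 ≤ B → ∃ E : Finset (Fin (d + 1) → ℤ),
      (E.card : ℝ) * (2 * H + 1) ≤
        (C * (Λ : ℝ) ^ κ * Real.exp (κ * B) + 2 * H / Λ) * (2 * H + 1) ^ (d + 1) ∧
      ∀ c : Fin (d + 1) → ℤ, (∀ i, |c i| ≤ H) → c ∉ E →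
        ∀ (L : Type) [Field L] [NumberField L] (x : L),
          logHeight₁ x / Module.finrank ℚ L ≤ B → ∀ n : ℕ,
            (d : ℝ) ^ n * B ≤ logHeight₁ ((poly c)^[n + 1] x) / Module.finrank ℚ L :=
  Pool.Agent.R870.DY.main d (by omega)

end Pool.Agent.Results.MP_4f5c90_nt.SmallPointsEscape
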